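import Pool.Agent.Helper70.DGL.Fr
import Pool.Agent.Helper68.DG.A5b

/-! Project DGL (MP_800410_an), piece SQ: sequential compactness -/

set_option autoImplicit false

open MeasureTheory Metric Set Filter Topology
open scoped ContDiff

namespace Pool.Agent.Helper48.DGL

open Pool.Agent.Helper68.DG Pool.Agent.Helper70.DGL

variable {ι : Type} [Fintype ι]

theorem gs_lip {K : ℝ} {u : V ι → ℝ} (hu : GS K u) (x y : V ι) : |u x - u y| ≤ K * ‖x - y‖ := by
  have h := Convex.norm_image_sub_le_of_norm_fderiv_le (𝕜 := ℝ) (f := u) (C := K) (s := univ)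
    (x := y) (y := x) (fun z _ => (hu.C1.differentiable one_ne_zero) z) (fun z _ => hu.bdd1 z)
    convex_univ (mem_univ _) (mem_univ _)
  simpa [Real.norm_eq_abs] using h

/-- subsequence converging at a dense sequence of points, hence everywhere -/
theorem exists_sub {K : ℝ} (u : ℕ → V ι → ℝ) (hb : ∀ n x, |u n x| ≤ K)
    (hl : ∀ n x y, |u n x - u n y| ≤ K * ‖x - y‖) (hK : 0 ≤ K) :
    ∃ φ : ℕ → ℕ, StrictMono φ ∧ ∃ v : V ι → ℝ,
      ∀ x, Tendsto (fun n => u (φ n) x) atTop (𝓝 (v x)) := by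
  set D : ℕ → V ι := TopologicalSpace.denseSeq (V ι) with hD
  have hc : IsCompact (Set.pi univ (fun _ : ℕ => Icc (-K) K)) :=
    isCompact_univ_pi fun _ => isCompact_Icc
  obtain ⟨a, -, φ, hφ, ha⟩ := hc.tendsto_subseq (x := fun n i => u n (D i))
    (fun n i _ => ⟨(abs_le.1 (hb n (D i))).1, (abs_le.1 (hb n (D i))).2⟩)
  refine ⟨φ, hφ, ?_⟩
  have hd : ∀ i, CauchySeq (fun n => u (φ n) (D i)) := fun i =>
    ((tendsto_pi_nhds.1 ha) i).cauchySeq
  have hex : ∀ x, ∃ b, Tendsto (fun n => u (φ n) x) atTop (𝓝 b) := by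
    intro x
    apply cauchySeq_tendsto_of_complete
    rw [Metric.cauchySeq_iff]
    intro ε hε
    have hρ : 0 < ε / (4 * (K + 1)) := by positivity
    obtain ⟨i, hi⟩ := (TopologicalSpace.denseRange_denseSeq (V ι)).exists_dist_lt x hρ
    obtain ⟨N, hN⟩ := (Metric.cauchySeq_iff.1 (hd i)) (ε / 2) (by positivity)
    refine ⟨N, fun m hm n hn => ?_⟩
    have h1 := hN m hm n hn
    have h2 := hl (φ m) x (D i)
    have h3 := hl (φ n) (D i) x
    rw [Real.dist_eq] at h1 ⊢
    rw [dist_eq_norm] at hi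
    have h4 : K * ‖x - D i‖ ≤ ε / 4 := by
      have h5 : ‖x - D i‖ ≤ ε / (4 * (K + 1)) := hi.le
      calc K * ‖x - D i‖ ≤ K * (ε / (4 * (K + 1))) := mul_le_mul_of_nonneg_left h5 hK
        _ ≤ (K + 1) * (ε / (4 * (K + 1))) := by
            apply mul_le_mul_of_nonneg_right (by linarith) hρ.le
        _ = ε / 4 := by field_simp
    have h6 : K * ‖D i - x‖ ≤ ε / 4 := by rw [norm_sub_rev]; exact h4
    have h7 : u (φ m) x - u (φ n) x = (u (φ m) x - u (φ m) (D i)) +
        (u (φ m) (D i) - u (φ n) (D i)) + (u (φ n) (D i) - u (φ n) x) := by ring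
    rw [h7]
    calc |(u (φ m) x - u (φ m) (D i)) + (u (φ m) (D i) - u (φ n) (D i)) +
          (u (φ n) (D i) - u (φ n) x)|
        ≤ |u (φ m) x - u (φ m) (D i)| + |u (φ m) (D i) - u (φ n) (D i)| +
          |u (φ n) (D i) - u (φ n) x| := abs_add_three _ _ _
      _ < ε := by linarith
  choose v hv using hex
  exact ⟨v, hv⟩

/-- `limit_fderiv` for sequences -/
theorem limit_seq {G : Type} [NormedAddCommGroup G] [NormedSpace ℝ G] [CompleteSpace G]
    {F : ℕ → V ι → G} {f : V ι → G} {K : ℝ} (hF : ∀ n, Differentiable ℝ (F n))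
    (hK : ∀ n x y, ‖fderiv ℝ (F n) x - fderiv ℝ (F n) y‖ ≤ K * ‖x - y‖)
    (hlim : ∀ x, Tendsto (fun n => F n x) atTop (𝓝 (f x))) :
    Differentiable ℝ f ∧ (∀ x, Tendsto (fun n => fderiv ℝ (F n) x) atTop (𝓝 (fderiv ℝ f x))) ∧
      ∀ x y, ‖fderiv ℝ f x - fderiv ℝ f y‖ ≤ K * ‖x - y‖ := by
  obtain ⟨h1, h2, h3⟩ := limit_fderiv (F := fun t : ℝ => F ⌊t⌋₊) (f := f) (K := K)
    (fun t => hF _) (fun t => hK _) (fun x => (hlim x).comp tendsto_nat_floor_atTop)
  refine ⟨h1, fun x => ?_, h3⟩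
  have h4 := (h2 x).comp (tendsto_natCast_atTop_atTop (R := ℝ))
  simpa [Function.comp_def] using h4

theorem s_SQ : S_SQ := by
  intro ι _ K u hu hst
  have hK : 0 ≤ K := (hu 0).K_nonneg
  obtain ⟨φ, hφ, v, hv⟩ := exists_sub u (fun n => (hu n).bdd) (fun n => gs_lip (hu n)) hK
  have hdiff : ∀ n, Differentiable ℝ (u (φ n)) := fun n =>
    (hu (φ n)).C1.differentiable one_ne_zero
  have hdiff1 : ∀ n, Differentiable ℝ (fderiv ℝ (u (φ n))) := fun n =>
    ((hu (φ n)).smooth.fderiv_right (m := 1) (by norm_num)).differentiable one_ne_zero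
  obtain ⟨hvd, hv1, hvlip⟩ := limit_seq (F := fun n => u (φ n)) hdiff
    (fun n => (hu (φ n)).lip1) hv
  obtain ⟨hvd2, hv2, hvlip2⟩ := limit_seq (F := fun n => fderiv ℝ (u (φ n))) hdiff1
    (fun n => (hu (φ n)).lip2) hv1
  have hlipc : Continuous (fderiv ℝ (fderiv ℝ v)) := by
    have h1 : LipschitzWith (Real.toNNReal K) (fderiv ℝ (fderiv ℝ v)) := by
      apply LipschitzWith.of_dist_le_mul
      intro x y
      rw [dist_eq_norm, dist_eq_norm, Real.coe_toNNReal K hK]
      exact hvlip2 x y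
    exact h1.continuous
  have hvC1' : ContDiff ℝ 1 (fderiv ℝ v) := contDiff_one_iff_fderiv.2 ⟨hvd2, hlipc⟩
  have hvC2 : ContDiff ℝ 2 v := by
    have h2 : (2 : WithTop ℕ∞) = 1 + 1 := by norm_num
    rw [h2, contDiff_succ_iff_fderiv]
    exact ⟨hvd, by simp, hvC1'⟩
  have hlap : ∀ x, Tendsto (fun n => lap (u (φ n)) x) atTop (𝓝 (lap v x)) := by
    intro x
    unfold lap
    apply tendsto_finsetSum
    intro i _
    have h3 : ∀ n, pd i (pd i (u (φ n))) x =
        fderiv ℝ (fderiv ℝ (u (φ n))) x (be i) (be i) := fun n => pd_pd (hu (φ n)).smooth i i x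
    simp only [h3]
    rw [pd_pd hvC2 i i x]
    have h4 : Tendsto (fun n => fderiv ℝ (fderiv ℝ (u (φ n))) x (be i)) atTop
        (𝓝 (fderiv ℝ (fderiv ℝ v) x (be i))) :=
      ((ContinuousLinearMap.apply ℝ (V ι →L[ℝ] ℝ) (be i)).continuous.tendsto _).comp (hv2 x)
    exact ((ContinuousLinearMap.apply ℝ ℝ (be i)).continuous.tendsto _).comp h4
  refine ⟨φ, hφ, v, ⟨hvC2, ?_, ?_, ?_, hvlip, hvlip2⟩, ?_, hv, hv1⟩
  · intro x
    have h1 : Tendsto (fun n => lap (u (φ n)) x + u (φ n) x - u (φ n) x ^ 3) atTop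
        (𝓝 (lap v x + v x - v x ^ 3)) := ((hlap x).add (hv x)).sub ((hv x).pow 3)
    have h2 : (fun n => lap (u (φ n)) x + u (φ n) x - u (φ n) x ^ 3) = fun _ => (0 : ℝ) := by
      funext n; exact (hu (φ n)).eqn x
    rw [h2] at h1
    exact tendsto_nhds_unique h1 tendsto_const_nhds
  · intro x
    exact le_of_tendsto' (hv x).abs fun n => (hu (φ n)).bdd x
  · intro x
    exact le_of_tendsto' (hv1 x).norm fun n => (hu (φ n)).bdd1 x
  · intro ζ hζ
    have hle : ∀ n, ∫ x, cc (u (φ n)) x * ζ x ^ 2 ≤ ∫ x, gd ζ ζ x := fun n => hst (φ n) ζ hζ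
    have hlim : Tendsto (fun n => ∫ x, cc (u (φ n)) x * ζ x ^ 2) atTop
        (𝓝 (∫ x, cc v x * ζ x ^ 2)) := by
      apply tendsto_integral_filter_of_dominated_convergence
        (fun x => (1 + 3 * K ^ 2) * (ζ x * ζ x))
      · filter_upwards with n
        apply Continuous.aestronglyMeasurable
        exact (continuous_cc (hu (φ n)).C1.continuous).mul (hζ.continuous.pow 2)
      · filter_upwards with n
        filter_upwards with x
        rw [norm_mul, Real.norm_eq_abs, Real.norm_eq_abs, abs_of_nonneg (sq_nonneg (ζ x)),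
          ← pow_two]
        apply mul_le_mul_of_nonneg_right _ (sq_nonneg _)
        have h1 := (hu (φ n)).bdd x
        have h2 : u (φ n) x ^ 2 ≤ K ^ 2 := by
          rw [← sq_abs]
          exact pow_le_pow_left₀ (abs_nonneg _) h1 2
        unfold cc
        rw [abs_le]
        constructor <;> nlinarith [sq_nonneg (u (φ n) x)]
      · exact (integrable_mul_T1 hζ.continuous hζ).const_mul _
      · filter_upwards with x
        have h1 : Tendsto (fun n => cc (u (φ n)) x) atTop (𝓝 (cc v x)) := by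
          unfold cc
          exact (((hv x).pow 2).const_mul 3).const_sub 1
        exact h1.mul_const _
    exact le_of_tendsto' hlim hle

end Pool.Agent.Helper48.DGL
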