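import Pool.Agent.Helper70.DGL.Fr
import Pool.Agent.Helper48.DGL.SQ
import Pool.Agent.Helper68.DG.B4
import Pool.Agent.Helper68.DG.G2

/-! Project DGL (MP_800410_an), piece CL: small defect implies closeness -/

set_option autoImplicit false

open MeasureTheory Metric Set Filter Topology
open scoped ContDiff

namespace Pool.Agent.Helper48.DGL

open Pool.Agent.Helper68.DG Pool.Agent.Helper70.DGL

variable {ι : Type} [Fintype ι]

theorem abs_cc_le {K : ℝ} {u : V ι → ℝ} (hb : ∀ x, |u x| ≤ K) (x : V ι) :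
    |cc u x| ≤ 1 + 3 * K ^ 2 := by
  have h1 := hb x
  have h2 : u x ^ 2 ≤ K ^ 2 := by
    rw [← sq_abs]
    exact pow_le_pow_left₀ (abs_nonneg _) h1 2
  unfold cc
  rw [abs_le]
  constructor <;> nlinarith [sq_nonneg (u x)]

theorem lap_cs {ψ : V ι → ℝ} (hψc : HasCompactSupport ψ) : HasCompactSupport (lap ψ) :=
  HasCompactSupport.intro hψc fun _ hx => b2_lap_zero hx

/-- every test function is in `TN N` for all large `N` -/
theorem exists_TN {ψ : V ι → ℝ} (hψ : ContDiff ℝ 2 ψ) (hψc : HasCompactSupport ψ) :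
    ∃ N₀ : ℕ, ∀ N : ℕ, N₀ ≤ N → TN N ψ := by
  obtain ⟨R, hR⟩ := hψc.isCompact.isBounded.subset_closedBall (0 : V ι)
  obtain ⟨C1, hC1⟩ := hψc.exists_bound_of_continuous hψ.continuous
  have hfc : Continuous (fderiv ℝ ψ) := hψ.continuous_fderiv (by norm_num)
  obtain ⟨C2, hC2⟩ := (hψc.fderiv (𝕜 := ℝ)).exists_bound_of_continuous hfc
  obtain ⟨N₀, hN₀⟩ := exists_nat_gt (max R (max C1 C2))
  refine ⟨N₀, fun N hN => ⟨hψ, fun x hx => ?_, fun x => ?_, fun x => ?_⟩⟩
  · have h1 : (N₀ : ℝ) ≤ N := by exact_mod_cast hN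
    by_contra h2
    have h3 : x ∈ tsupport ψ := subset_tsupport _ h2
    have h4 := hR h3
    rw [mem_closedBall, dist_zero_right] at h4
    have h5 : R < N₀ := (le_max_left _ _).trans_lt hN₀
    linarith
  · have h1 : (N₀ : ℝ) ≤ N := by exact_mod_cast hN
    have h5 : C1 < N₀ := ((le_max_left _ _).trans (le_max_right _ _)).trans_lt hN₀
    have := hC1 x
    rw [Real.norm_eq_abs] at this
    linarith
  · have h1 : (N₀ : ℝ) ≤ N := by exact_mod_cast hN
    have h5 : C2 < N₀ := ((le_max_right _ _).trans (le_max_right _ _)).trans_lt hN₀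
    have := hC2 x
    linarith

theorem abs_max_le {a C : ℝ} (h : |a| ≤ C) : |max a 0| ≤ C := by
  have h0 := abs_nonneg a
  rw [abs_of_nonneg (le_max_right _ _)]
  exact max_le ((le_abs_self a).trans h) (h0.trans h)

/-- the defects converge -/
theorem tendsto_AA {K : ℝ} {u : ℕ → V ι → ℝ} {v : V ι → ℝ} (hu : ∀ n, GS K (u n))
    (h0 : ∀ x, Tendsto (fun n => u n x) atTop (𝓝 (v x)))
    (h1 : ∀ x, Tendsto (fun n => fderiv ℝ (u n) x) atTop (𝓝 (fderiv ℝ v x)))
    (b : V ι) {ψ : V ι → ℝ} (hψ : ContDiff ℝ 2 ψ) (hψc : HasCompactSupport ψ) :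
    Tendsto (fun n => AA b ψ (u n)) atTop (𝓝 (AA b ψ v)) := by
  unfold AA
  have hK : 0 ≤ K := (hu 0).K_nonneg
  apply tendsto_integral_filter_of_dominated_convergence
    (fun x => (K * ‖b‖) * (|lap ψ x| + (1 + 3 * K ^ 2) * |ψ x|))
  · filter_upwards with n
    apply Continuous.aestronglyMeasurable
    have hfc : Continuous (fun x => fderiv ℝ (u n) x) := (hu n).C1.continuous_fderiv one_ne_zero
    exact ((hfc.clm_apply continuous_const).max continuous_const).mul
      ((continuous_lap hψ).add ((continuous_cc (hu n).C1.continuous).mul hψ.continuous))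
  · filter_upwards with n
    filter_upwards with x
    rw [norm_mul, Real.norm_eq_abs, Real.norm_eq_abs]
    apply mul_le_mul _ _ (abs_nonneg _) (by positivity)
    · apply abs_max_le
      have h3 := (fderiv ℝ (u n) x).le_opNorm b
      rw [Real.norm_eq_abs] at h3
      exact h3.trans (mul_le_mul_of_nonneg_right ((hu n).bdd1 x) (norm_nonneg _))
    · refine (abs_add_le _ _).trans (add_le_add le_rfl ?_)
      rw [abs_mul]
      exact mul_le_mul_of_nonneg_right (abs_cc_le (hu n).bdd x) (abs_nonneg _)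
  · have i1 : Integrable fun x => |lap ψ x| := (integrable_cs (continuous_lap hψ)
      (lap_cs hψc)).abs
    have i2 : Integrable fun x => |ψ x| := (integrable_cs hψ.continuous hψc).abs
    exact (i1.add (i2.const_mul _)).const_mul _
  · filter_upwards with x
    have hcc : Tendsto (fun n => cc (u n) x) atTop (𝓝 (cc v x)) := by
      unfold cc
      exact (((h0 x).pow 2).const_mul 3).const_sub 1
    have hd : Tendsto (fun n => fderiv ℝ (u n) x b) atTop (𝓝 (fderiv ℝ v x b)) :=
      ((ContinuousLinearMap.apply ℝ ℝ b).continuous.tendsto _).comp (h1 x)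
    exact (hd.max tendsto_const_nhds).mul ((hcc.mul_const _).const_add _)

/-- the defect in the direction `b` depends continuously on `b` -/
theorem AA_zero_of_dense {K : ℝ} {v : V ι → ℝ} (hv : GS K v) {ψ : V ι → ℝ} (hψ : ContDiff ℝ 2 ψ)
    (hψc : HasCompactSupport ψ) (h : ∀ i, AA (dir ι i) ψ v = 0) (b : V ι) : AA b ψ v = 0 := by
  set I : ℝ := ∫ x, |lap ψ x + cc v x * ψ x| with hI
  have hI0 : 0 ≤ I := integral_nonneg fun x => abs_nonneg _
  have hK : 0 ≤ K := hv.K_nonneg
  have hfc : Continuous (fun x => fderiv ℝ v x) := hv.C1.continuous_fderiv one_ne_zero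
  have hc : Continuous fun x => lap ψ x + cc v x * ψ x :=
    (continuous_lap hψ).add ((continuous_cc hv.C1.continuous).mul hψ.continuous)
  have hs : HasCompactSupport fun x => lap ψ x + cc v x * ψ x :=
    (lap_cs hψc).add (hψc.mul_left (f := cc v))
  have hint : ∀ c : V ι, Integrable fun x => max (fderiv ℝ v x c) 0 * (lap ψ x + cc v x * ψ x) :=
    fun c => integrable_cs (((hfc.clm_apply continuous_const).max continuous_const).mul hc)
      hs.mul_left
  have key : ∀ c : V ι, |AA b ψ v - AA c ψ v| ≤ K * ‖b - c‖ * I := by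
    intro c
    unfold AA
    rw [← integral_sub (hint b) (hint c), hI, ← integral_const_mul]
    rw [← Real.norm_eq_abs]
    apply norm_integral_le_of_norm_le ((integrable_cs hc hs).abs.const_mul _)
    refine Eventually.of_forall fun x => ?_
    rw [← sub_mul, norm_mul, Real.norm_eq_abs, Real.norm_eq_abs]
    apply mul_le_mul_of_nonneg_right _ (abs_nonneg _)
    refine (abs_max_sub_max_le_abs _ _ _).trans ?_
    rw [← map_sub, ← Real.norm_eq_abs]
    exact ((fderiv ℝ v x).le_opNorm _).trans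
      (mul_le_mul_of_nonneg_right (hv.bdd1 x) (norm_nonneg _))
  by_contra hne
  have hpos : 0 < |AA b ψ v| := abs_pos.2 hne
  have hε : 0 < |AA b ψ v| / (2 * (K + 1) * (I + 1)) := by positivity
  obtain ⟨i, hi⟩ := (TopologicalSpace.denseRange_denseSeq (V ι)).exists_dist_lt b hε
  have h1 := key (dir ι i)
  rw [h i, sub_zero] at h1
  rw [dist_eq_norm] at hi
  have h2 : K * ‖b - dir ι i‖ * I ≤ |AA b ψ v| / 2 := by
    have h3 : ‖b - dir ι i‖ ≤ |AA b ψ v| / (2 * (K + 1) * (I + 1)) := hi.le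
    calc K * ‖b - dir ι i‖ * I ≤ (K + 1) * (|AA b ψ v| / (2 * (K + 1) * (I + 1))) * (I + 1) := by
          apply mul_le_mul _ (by linarith) hI0 (by positivity)
          exact mul_le_mul (by linarith) h3 (norm_nonneg _) (by positivity)
      _ = |AA b ψ v| / 2 := by field_simp
  linarith

theorem signed_of_AA {K : ℝ} {v : V ι → ℝ} (hv : GS K v)
    (h : ∀ (b : V ι) (ψ : V ι → ℝ), ContDiff ℝ 2 ψ → HasCompactSupport ψ → AA b ψ v = 0) :
    Signed v := by
  have hfc : Continuous (fun x => fderiv ℝ v x) := hv.C1.continuous_fderiv one_ne_zero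
  have dich : ∀ b : V ι, (∀ x, 0 < fderiv ℝ v x b) ∨ ∀ x, fderiv ℝ v x b ≤ 0 := by
    intro b
    by_cases hb : ∃ x₀, fderiv ℝ v x₀ b ≤ 0
    · right
      obtain ⟨x₀, hx₀⟩ := hb
      intro x
      have h3 := smp (h := fun x => max (fderiv ℝ v x b) 0) (c := cc v) (K := 1 + 3 * K ^ 2)
        ((hfc.clm_apply continuous_const).max continuous_const) (fun x => le_max_right _ _)
        (continuous_cc hv.C1.continuous) (abs_cc_le hv.bdd) (fun ψ h1 h2 => h b ψ h1 h2)
        (x₀ := x₀) (max_eq_right hx₀) x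
      have h4 : fderiv ℝ v x b ≤ max (fderiv ℝ v x b) 0 := le_max_left _ _
      have h5 : max (fderiv ℝ v x b) 0 = 0 := h3
      rwa [h5] at h4
    · left
      push Not at hb
      exact hb
  intro b
  rcases dich b with h | h
  · exact Or.inl h
  · rcases dich (-b) with h' | h'
    · right; left
      intro x
      have := h' x
      rw [map_neg] at this
      linarith
    · right; right
      intro x
      have h1 := h' x
      rw [map_neg] at h1
      exact le_antisymm (h x) (by linarith)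

/-- locally uniform convergence -/
theorem close_ball {K r δ : ℝ} (hδ : 0 < δ) {u : ℕ → V ι → ℝ} {v : V ι → ℝ}
    (hu : ∀ n, GS K (u n)) (hv : GS K v)
    (h0 : ∀ x, Tendsto (fun n => u n x) atTop (𝓝 (v x)))
    (h1 : ∀ x, Tendsto (fun n => fderiv ℝ (u n) x) atTop (𝓝 (fderiv ℝ v x))) :
    ∀ᶠ n in atTop, ∀ x, ‖x‖ ≤ r →
      |u n x - v x| ≤ δ ∧ ‖fderiv ℝ (u n) x - fderiv ℝ v x‖ ≤ δ := by
  have hK : 0 ≤ K := hv.K_nonneg
  have hρ : 0 < δ / (3 * (K + 1)) := by positivity
  obtain ⟨t, -, ht, hcov⟩ := (isCompact_closedBall (0 : V ι) r).finite_cover_balls hρ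
  have hev : ∀ᶠ n in atTop, ∀ y ∈ t, |u n y - v y| < δ / 3 ∧
      ‖fderiv ℝ (u n) y - fderiv ℝ v y‖ < δ / 3 := by
    rw [ht.eventually_all]
    intro y _
    have e1 := (Metric.tendsto_nhds.1 (h0 y)) (δ / 3) (by positivity)
    have e2 := (Metric.tendsto_nhds.1 (h1 y)) (δ / 3) (by positivity)
    filter_upwards [e1, e2] with n hn1 hn2
    rw [Real.dist_eq] at hn1
    rw [dist_eq_norm] at hn2
    exact ⟨hn1, hn2⟩
  filter_upwards [hev] with n hn x hx
  have hxm : x ∈ closedBall (0 : V ι) r := by simpa using hx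
  obtain ⟨y, hy, hxy⟩ := mem_iUnion₂.1 (hcov hxm)
  rw [mem_ball, dist_eq_norm] at hxy
  obtain ⟨k1, k2⟩ := hn y hy
  have h4 : K * ‖x - y‖ ≤ δ / 3 := by
    calc K * ‖x - y‖ ≤ (K + 1) * (δ / (3 * (K + 1))) :=
          mul_le_mul (by linarith) hxy.le (norm_nonneg _) (by positivity)
      _ = δ / 3 := by field_simp
  have h4' : K * ‖y - x‖ ≤ δ / 3 := by rw [norm_sub_rev]; exact h4
  constructor
  · have e : u n x - v x = (u n x - u n y) + (u n y - v y) + (v y - v x) := by ring
    rw [e]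
    refine (abs_add_three _ _ _).trans ?_
    have := gs_lip (hu n) x y
    have := gs_lip hv y x
    linarith
  · have e : fderiv ℝ (u n) x - fderiv ℝ v x = (fderiv ℝ (u n) x - fderiv ℝ (u n) y) +
        (fderiv ℝ (u n) y - fderiv ℝ v y) + (fderiv ℝ v y - fderiv ℝ v x) := by abel
    rw [e]
    refine (norm_add₃_le).trans ?_
    have := (hu n).lip1 x y
    have := hv.lip1 y x
    linarith

theorem s_CL : S_CL := by
  intro ι _ K r δ hδ
  by_contra hno
  push Not at hno
  choose u hu hst hsd hcl using hno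
  obtain ⟨φ, hφ, v, hv, hvs, h0, h1⟩ := s_SQ ι K u hu hst
  have hAA : ∀ (i : ℕ) (ψ : V ι → ℝ), ContDiff ℝ 2 ψ → HasCompactSupport ψ →
      AA (dir ι i) ψ v = 0 := by
    intro i ψ hψ hψc
    obtain ⟨N₀, hN₀⟩ := exists_TN hψ hψc
    have ht := tendsto_AA (fun n => hu (φ n)) h0 h1 (dir ι i) hψ hψc
    have h2 : Tendsto (fun n => 1 / ((φ n : ℝ) + 1)) atTop (𝓝 0) :=
      tendsto_one_div_add_atTop_nhds_zero_nat.comp hφ.tendsto_atTop
    have h3 : Tendsto (fun n => |AA (dir ι i) ψ (u (φ n))|) atTop (𝓝 0) := by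
      apply squeeze_zero' (Eventually.of_forall fun n => abs_nonneg _) _ h2
      have e1 := hφ.tendsto_atTop.eventually_ge_atTop (max N₀ (i + 1))
      filter_upwards [e1] with n hn
      exact hsd (φ n) i (lt_of_lt_of_le (Nat.lt_succ_self i) ((le_max_right _ _).trans hn)) ψ
        (hN₀ _ ((le_max_left _ _).trans hn))
    have h4 := tendsto_nhds_unique ht.abs h3
    exact abs_eq_zero.1 h4
  have hsig : Signed v := signed_of_AA hv fun b ψ hψ hψc =>
    AA_zero_of_dense hv hψ hψc (fun i => hAA i ψ hψ hψc) b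
  have hAM : AM v := AM_of_signed hv hvs hsig
  obtain ⟨n, hn⟩ := (close_ball (r := r) hδ (fun n => hu (φ n)) hv h0 h1).exists
  exact hcl (φ n) ⟨v, hv, hAM, hn⟩

end Pool.Agent.Helper48.DGL
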